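import Mathlib
import Pool.Agent.H.MP_1acbfe_co.B

set_option autoImplicit false
open Finset

namespace Pool.Agent.Results.MP_1acbfe_co.Yes
open Pool.Agent.Lib.helper1

open Pool.Agent.H.MP_1acbfe_co.A in
theorem result : ∃ (n : ℕ) (K : Finset (Finset (Fin n))),
    (∅ ∈ K ∧ ∀ σ ∈ K, ∀ τ ⊆ σ, τ ∈ K) ∧
    Nonempty (↥{x : Fin n → ℝ | (∀ i, 0 ≤ x i) ∧ ∑ i, x i = 1 ∧ ∃ σ ∈ K, ∀ i, i ∉ σ → x i = 0} ≃ₜ
      ↥(Metric.closedBall (0 : EuclideanSpace ℝ (Fin 3)) 1)) ∧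
    LC.IsLC 3 K ∧ ¬ Mask.NE K := by
  refine ⟨13, Mask.cx 13 fac, ⟨Mask.mem_cx.2 ⟨141, by decide +kernel, empty_subset _⟩, ?_⟩, ?_, ?_,
    fun h => ?_⟩
  · intro σ hσ τ s
    obtain ⟨m, a, b⟩ := Mask.mem_cx.1 hσ
    exact Mask.mem_cx.2 ⟨m, a, s.trans b⟩
  · rw [show {x : Fin 13 → ℝ | (∀ i, 0 ≤ x i) ∧ ∑ i, x i = 1 ∧ ∃ σ ∈ Mask.cx 13 fac,
      ∀ i, i ∉ σ → x i = 0} = Flip.Geo (Mask.Cx 13 fac) by simp only [Mask.mem_cx, Flip.Geo]]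
    exact Mask.run_ball 3 15 ![0, 1, 2, 3] (by decide) (by decide +kernel) _ _ h1
  · refine LC.lc_ok h3.2.2 (by decide +kernel) _ [141] [] (by decide +kernel) (by simp) ?_ h5
    exact .start _ (Mask.mem_cx.2 ⟨141, by decide +kernel, subset_rfl⟩) (by decide +kernel)
  · refine Mask.evasive h2 h3.1 h3.2.1 ?_ h4 h 8191 (by decide +kernel) ?_
    · unfold Mask.Cx
      decide +kernel
    · rw [show Mask.f 13 8191 = univ by decide +kernel]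
      simp

end Pool.Agent.Results.MP_1acbfe_co.Yes
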